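import Pool.Agent.helper38.AT.Spec

/-!
# Almost all tuples (MP_bf63dc_nt): row STG, primes in more than a quarter of the clusters
-/

set_option autoImplicit false

namespace Pool.Agent.AT

open Finset Real Filter Pool.Agent.helper39.MT Pool.Agent.helper85.FC Pool.Agent.MK

theorem STG (h1 : PB_stmt) (h2 : MDG_stmt) (h3 : CRG_stmt) : STG_stmt := by
  classical
  intro k hk1
  obtain ⟨kc, D₀, hkc, hTkc, hD, hmodel⟩ := h2 (k * 10 ^ 5) (1 / 10 ^ 7) (by norm_num) (by norm_num)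
  have hk1r : (1 : ℝ) ≤ k := by exact_mod_cast hk1
  have hkkc : k ≤ kc := by
    have : (k : ℝ) ≤ kc := by linarith
    exact_mod_cast this
  refine ⟨kc, D₀, hkc, hkkc, fun κ hκs A B W h N => ?_⟩
  by_contra hcon
  push Not at hcon
  have hk : 2 ≤ 4 * kc := by omega
  obtain ⟨a₀, hm⟩ := hmodel W h.Wpos h.small
  obtain ⟨a₁, hS1⟩ := S1_gen h hD
  obtain ⟨a₂, hS2⟩ := S2_gen h hk hD (1 / 2000) (by norm_num) (by norm_num) 8
  obtain ⟨a₃, hmass⟩ := mass_bounds
  obtain ⟨a₄, hPB⟩ := h1 _ _ W A B h hk hD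
  have hpm : ∀ᶠ a : ℝ in atTop, ∀ i, |pmass (a + Real.log (A i)) - mass a| ≤ 1 / 10 ^ 7 :=
    eventually_all.2 fun i => F1_mass (A i) (h.Apos i) (by norm_num)
  set AB : ℕ := ∑ i, (A i + B i) with hAB
  obtain ⟨a, hpm, ha0, ha1, ha2, ha3, ha4, haN, haL, hak, hbig⟩ :=
    (hpm.and ((eventually_ge_atTop a₀).and ((eventually_ge_atTop a₁).and
      ((eventually_ge_atTop a₂).and ((eventually_ge_atTop a₃).and
      ((eventually_ge_atTop a₄).and
      ((eventually_ge_atTop (N : ℝ)).and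
      ((eventually_ge_atTop (10 ^ 5 * (Real.log (AB + 1) + 1))).and
      ((eventually_ge_atTop (kc : ℝ)).and (eventually_ge_atTop (10 ^ 8 : ℝ))))))))))).exists
  have hapos : 0 < a := by linarith
  -- the parameter R
  obtain ⟨R, hRdef⟩ : ∃ R : ℕ, R = ⌊Real.exp (a / 4)⌋₊ := ⟨_, rfl⟩
  have hRle : (R : ℝ) ≤ Real.exp (a / 4) := by rw [hRdef]; exact Nat.floor_le (Real.exp_pos _).le
  have hR2 : 2 ≤ R := by
    rw [hRdef]
    refine Nat.le_floor ?_
    have := Real.add_one_le_exp (a / 4)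
    push_cast
    linarith
  have hRle2 : (R : ℝ) ≤ Real.exp (a / 2) := hRle.trans (Real.exp_le_exp.2 (by linarith))
  have hRle1 : (R : ℝ) ≤ Real.exp a := hRle.trans (Real.exp_le_exp.2 (by linarith))
  obtain ⟨y, E₀, E₁, hy1, hy2, hE0, hE1, hE0', hE1', hT, hz⟩ := hm a ha0 R hRdef
  obtain ⟨hM1, hM2⟩ := hmass a ha3
  -- constants
  have hφ : 0 < (Nat.totient W : ℝ) := by exact_mod_cast Nat.totient_pos.2 h.Wpos
  have hW0 : 0 < (W : ℝ) := by exact_mod_cast h.Wpos
  have hPB' := hPB a ha4 R hRdef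
  obtain ⟨κi, hκi⟩ : ∃ κi : ℝ, κi = (W : ℝ) / Nat.totient W := ⟨_, rfl⟩
  obtain ⟨κr, hκ⟩ : ∃ κr : ℝ, κr = (Nat.totient W : ℝ) / W := ⟨_, rfl⟩
  have hκκ : κi * κr = 1 := by rw [hκi, hκ]; field_simp
  have hκi1 : 1 ≤ κi := by
    rw [hκi, le_div_iff₀ hφ, one_mul]
    exact_mod_cast Nat.totient_le W
  have hκ0 : 0 < κr := by rw [hκ]; positivity
  rw [← hκ] at hT
  have hS2' := hS2 a ha2 R hR2 hRle2
  rw [← hκi] at hS2' hPB'
  set M : ℝ := mass a with hM
  set G : ℝ := M * E₀ with hG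
  set t : ℝ := κi * M * E₁ with ht
  have hM0 : 0 < M := by linarith
  have hE00 : 0 < E₀ := by linarith
  have hE10 : 0 < E₁ := by linarith
  have hG0 : 0 < G := by positivity
  have hG1 : 1 / 8 ≤ G := by rw [hG]; nlinarith
  have hκi0 : 0 < κi := by linarith
  have ht0 : 0 < t := by positivity
  have ht1 : 1 / 16 ≤ t := by
    have h1 : 1 / 8 * (1 / 2) ≤ M * E₁ := mul_le_mul hM1 hE1 (by norm_num) hM0.le
    have h2 : M * E₁ ≤ κi * (M * E₁) := le_mul_of_one_le_left (by positivity) hκi1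
    rw [ht, mul_assoc]
    linarith
  have hkc0 : (1 : ℝ) ≤ kc := by exact_mod_cast hkc
  have hpmlow : ∀ i, (1 - 1 / 10 ^ 6) * M ≤ pmass (a + Real.log (A i)) := fun i => by
    have := (abs_le.1 (hpm i)).1
    linarith
  have hTk : k * (10 ^ 5 * a * G) ≤ kc * t := by
    have h1 : κi * M * (k * 10 ^ 5 * a * κr * E₀) ≤ κi * M * (kc * E₁) :=
      mul_le_mul_of_nonneg_left hT (by positivity)
    have h2 : κi * M * (k * 10 ^ 5 * a * κr * E₀) = k * (10 ^ 5 * a * (M * E₀)) * (κi * κr) := by ring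
    rw [h2, hκκ, mul_one] at h1
    rw [hG, ht]
    linarith
  have hT' : 10 ^ 5 * a * G ≤ kc * t := by
    refine le_trans ?_ hTk
    exact le_mul_of_one_le_left (by positivity) hk1r
  have hTj : ∀ j : Fin k, 10 ^ 5 * a * G ≤ (#{i | κ i = j} : ℝ) * t := by
    intro j
    have h1 : (kc : ℝ) ≤ k * (#{i | κ i = j} : ℝ) := by exact_mod_cast hκs j
    have h2 : (kc : ℝ) * t ≤ k * (#{i | κ i = j} : ℝ) * t := mul_le_mul_of_nonneg_right h1 ht0.le
    have h3 : (k : ℝ) * (10 ^ 5 * a * G) ≤ k * ((#{i | κ i = j} : ℝ) * t) := by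
      rw [← mul_assoc]
      exact (by simpa only [mul_assoc] using hTk : (k : ℝ) * 10 ^ 5 * (a * G) ≤ kc * t) |>.trans' (by linarith) |>.trans (by linarith)
    exact le_of_mul_le_mul_left h3 (by linarith)
  have htG : 1 / 2 ≤ t ^ 2 / G := by
    rw [le_div_iff₀ hG0]
    have h1 : 10 ^ 5 * a * G ≤ a * t := hT'.trans (mul_le_mul_of_nonneg_right hak ht0.le)
    have h2 : 10 ^ 5 * G ≤ t := by
      by_contra hc
      push Not at hc
      have := mul_lt_mul_of_pos_left hc hapos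
      linarith
    nlinarith
  have hlog : ∀ i, ∀ n : ℕ, 0 < n → wt 1 a n ≠ 0 → Real.log ((A i : ℝ) * n + B i)
      ≤ (1 + 1 / 10 ^ 5) * a := by
    intro i n hn hw
    have hn2 := (F1_wt_support hn hw).2
    have hn1' : (1 : ℝ) ≤ n := by exact_mod_cast hn
    have hA : (0 : ℝ) < A i := by exact_mod_cast h.Apos i
    have hB : (0 : ℝ) < B i := by exact_mod_cast h.Bpos i
    have h1 : ((A i : ℝ) * n + B i) ≤ (AB + 1) * Real.exp (a + 1) := by
      have h2 : (A i : ℝ) + B i ≤ AB := by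
        rw [hAB]
        push_cast
        exact single_le_sum (f := fun i => (A i : ℝ) + B i) (fun i _ => by positivity) (mem_univ i)
      have h3 : (B i : ℝ) ≤ B i * n := le_mul_of_one_le_right hB.le hn1'
      calc (A i : ℝ) * n + B i ≤ A i * n + B i * n := by linarith
        _ = (A i + B i) * n := by ring
        _ ≤ (AB + 1) * Real.exp (a + 1) := by
          have : (0 : ℝ) ≤ AB := Nat.cast_nonneg _
          exact mul_le_mul (by linarith) hn2.le (by linarith) (by linarith)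
    calc Real.log ((A i : ℝ) * n + B i) ≤ Real.log ((AB + 1) * Real.exp (a + 1)) :=
          Real.log_le_log (by positivity) h1
      _ = Real.log (AB + 1) + (a + 1) := by
          rw [Real.log_mul (by positivity) (Real.exp_pos _).ne', Real.log_exp]
      _ ≤ _ := by linarith
  have hlam0 : ∀ n, 0 ≤ lam n := fun n => by
    unfold lam
    split_ifs
    · exact Real.log_natCast_nonneg n
    · exact le_rfl
  have hlamle : ∀ i, ∀ n : ℕ, 0 < n → wt 1 a n ≠ 0 →
      lam (A i * n + B i) ≤ (1 + 1 / 10 ^ 5) * a := by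
    intro i n hn hw
    have h1 := hlog i n hn hw
    unfold lam
    split_ifs
    · push_cast
      exact h1
    · positivity
  have hlamne : ∀ i, ∀ n : ℕ, lam (A i * n + B i) ≠ 0 → (A i * n + B i).Prime := by
    intro i n hne
    by_contra hc
    exact hne (by rw [lam, if_neg hc])
  have hinv : 1 / a ^ 8 ≤ 1 / 10 ^ 8 := by
    have h1 : (10 ^ 8 : ℝ) ≤ a ^ 8 := by
      calc (10 ^ 8 : ℝ) ≤ a := by linarith
        _ = a ^ 1 := (pow_one a).symm
        _ ≤ a ^ 8 := pow_le_pow_right₀ (by linarith) (by norm_num)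
    exact one_div_le_one_div_of_le (by norm_num) h1
  refine h3 kc k κ (Ioc 0 (NN 1 a))
    (fun n => wt 1 a n * FF (prP W R) y (pat A B (PS W R) n) ^ 2)
    (fun i n => lam (A i * n + B i)) a G t hk1 hapos hG0 ht0
    (fun n _ => mul_nonneg (wt_nonneg _ _ _) (sq_nonneg _)) (fun i n => hlam0 _) ?_ ?_ ?_ ?_ hTj ?_
  · -- S1
    have h1 := hS1 a ha1 R hR2 hRle1 y hy1 (fun σ hσ => (hy2 σ hσ).trans
      (Real.exp_le_exp.2 (by linarith)))
    have h2 := (abs_le.1 h1).2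
    have h3 : M * Ex (fun p : PS W R => mu0 (p : ℝ))
        (fun e => FF (prP W R) y e ^ 2) ≤ M * E₀ :=
      mul_le_mul_of_nonneg_left hE0' hM0.le
    have h4 : Real.exp (-a / 4) ≤ 1 / 10 ^ 7 := by
      rw [show -a / 4 = -(a / 4) by ring, Real.exp_neg, ← one_div]
      refine one_div_le_one_div_of_le (by norm_num) ?_
      have := Real.add_one_le_exp (a / 4)
      linarith
    rw [hG] at hG1 ⊢
    linarith
  · -- S2
    intro i
    have h1 := hS2' y hy1 (fun σ hσ => (hy2 σ hσ).trans (Real.exp_le_exp.2 (by linarith))) i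
    have h2 := (abs_le.1 h1).1
    have h3 : (1 - 1 / 10 ^ 6) * t ≤ κi * pmass (a + Real.log (A i)) *
        Ex (fun p : PS W R => mu1 i (p : ℝ))
          (fun e => FF (prP W R) y e ^ 2) := by
      calc (1 - 1 / 10 ^ 6) * t = κi * ((1 - 1 / 10 ^ 6) * M) * E₁ := by rw [ht]; ring
        _ ≤ κi * pmass (a + Real.log (A i)) * E₁ :=
            mul_le_mul_of_nonneg_right (mul_le_mul_of_nonneg_left (hpmlow i) hκi0.le) hE10.le
        _ ≤ _ := mul_le_mul_of_nonneg_left (hE1' i)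
            (mul_nonneg hκi0.le (le_trans (mul_nonneg (by norm_num) hM0.le) (hpmlow i)))
    have h4 : ∑ n ∈ Ioc 0 (NN 1 a), wt 1 a n * FF (prP W R) y
          (pat A B (PS W R) n) ^ 2 * lam (A i * n + B i)
        = ∑ n ∈ Ioc 0 (NN 1 a), wt 1 a n * lam (A i * n + B i) *
          FF (prP W R) y (pat A B (PS W R) n) ^ 2 :=
      sum_congr rfl fun n _ => by ring
    show (1 - 1 / 10 ^ 5) * t ≤ ∑ n ∈ Ioc 0 (NN 1 a), wt 1 a n * FF (prP W R) y
          (pat A B (PS W R) n) ^ 2 * lam (A i * n + B i)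
    rw [h4]
    linarith
  · intro i n hn hvn
    exact hlamle i n (mem_Ioc.1 hn).1 (left_ne_zero_of_mul hvn)
  · -- off-diagonal terms
    intro i i' hii
    obtain ⟨z, hz1, hz2, hz3, hz4⟩ := hz i i' hii
    have h5 := hPB' y z i i' hii hz1 (fun σ hσ => ⟨((hz2 σ hσ).1).trans
      (Real.exp_le_exp.2 (by linarith)), (hz2 σ hσ).2⟩) hz3
    refine h5.trans ?_
    have h6 : κi ^ 2 * M * QF (prP W R) z ≤ (1 + 4 * (1 / 10 ^ 7)) * (t ^ 2 / G) := by
      have h7 : QF (prP W R) z ≤ (1 + 4 * (1 / 10 ^ 7)) * E₁ ^ 2 / E₀ := by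
        rw [le_div_iff₀ hE00, mul_comm]
        exact hz4
      calc κi ^ 2 * M * QF (prP W R) z ≤ κi ^ 2 * M * ((1 + 4 * (1 / 10 ^ 7)) * E₁ ^ 2 / E₀) :=
            mul_le_mul_of_nonneg_left h7 (by positivity)
        _ = _ := by
            rw [ht, hG]
            field_simp
    have h8 : 1 / a ≤ 1 / 10 ^ 8 := one_div_le_one_div_of_le (by norm_num) (by linarith)
    have h9 : (4 - 1 / 4000) * t ^ 2 / G = (4 - 1 / 4000) * (t ^ 2 / G) := by ring
    rw [h9]
    have h10 : (4 - 3 / 10 ^ 4) * κi ^ 2 * M * QF (prP W R) z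
        = (4 - 3 / 10 ^ 4) * (κi ^ 2 * M * QF (prP W R) z) := by ring
    rw [h10]
    have h11 := mul_le_mul_of_nonneg_left h6 (show (0 : ℝ) ≤ 4 - 3 / 10 ^ 4 by norm_num)
    linarith
  · intro n hn hvn
    have hn0 := (mem_Ioc.1 hn).1
    have hw : wt 1 a n ≠ 0 := left_ne_zero_of_mul hvn
    have hNn : N ≤ n := by
      have h6 := (F1_wt_support hn0 hw).1
      have h7 := Real.add_one_le_exp (a + 1 / 2)
      have h8 : (N : ℝ) ≤ n := by linarith
      exact_mod_cast h8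
    refine le_trans ?_ (hcon n hNn)
    have h9 : #{j : Fin k | ∃ i, κ i = j ∧ lam (A i * n + B i) ≠ 0} ≤ #{j : Fin k | ∃ i, κ i = j ∧ (A i * n + B i).Prime} := by
      apply card_le_card
      intro j hj
      rw [mem_filter] at hj ⊢
      obtain ⟨hj1, i, hi1, hi2⟩ := hj
      exact ⟨hj1, i, hi1, hlamne i n hi2⟩
    exact_mod_cast h9

end Pool.Agent.AT
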