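import Pool.Agent.helper10.QT.SpecY

set_option autoImplicit false

namespace Pool.Agent.AT

open Finset Pool.Agent.helper85.FC

open scoped Pointwise

theorem GQT_mem (c : ℤ) (w : ℚˣ) (s : ℕ) (hw : (w : ℚ) = s) (hs : 0 < s) (hc : IsCoprime (s : ℤ) c) : w ∈ Gc c := by
  show PrTo c (w : ℚ)
  refine ⟨?_, fun p hp hpc => ?_⟩
  · rw [hw]
    exact_mod_cast hs
  · have := Fact.mk hp
    rw [hw, padicValRat.of_nat, padicValNat.eq_zero_of_not_dvd]
    · rfl
    · intro h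
      have h1 : (p : ℤ) ∣ (s : ℤ) := by exact_mod_cast h
      have h2 := hc.isUnit_of_dvd' h1 hpc
      rw [Int.isUnit_iff_natAbs_eq] at h2
      rw [Int.natAbs_natCast] at h2
      exact hp.one_lt.ne' h2

theorem GQT (h1 : GQ1_stmt) : GQT_stmt := by
  classical
  intro K c hc hF hX x hx
  obtain ⟨F, hFK, hF1, hF2⟩ := hF
  obtain ⟨w, hw⟩ : ∃ w : ℕ → ℚˣ, ∀ s : ℕ, 0 < s → (w s : ℚ) = s := by
    refine ⟨fun s => if h : (s : ℚ) ≠ 0 then Units.mk0 (s : ℚ) h else 1, fun s hs => ?_⟩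
    have h : (s : ℚ) ≠ 0 := by exact_mod_cast hs.ne'
    simp only [dif_pos h, Units.val_mk0]
  have hwm : ∀ s ∈ F, w s ∈ Gc c := fun s hs => GQT_mem c (w s) s (hw s (hF1 s hs).1) (hF1 s hs).1 (hF1 s hs).2
  obtain ⟨i, j, hij, a, ha, b, hb, hg⟩ := hX (fun i => F.image (fun s => x i * w s)) (by
    intro i
    rw [card_image_of_injOn, hFK]
    intro s hs t ht hst
    have h2 : w s = w t := mul_left_cancel (show x i * w s = x i * w t from hst)
    have h3 : (s : ℚ) = t := by rw [← hw s (hF1 s hs).1, ← hw t (hF1 t ht).1, h2]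
    exact_mod_cast h3) (by
    intro i y hy
    rw [mem_image] at hy
    obtain ⟨s, hs, rfl⟩ := hy
    exact (Gc c).mul_mem (hx i) (hwm s hs))
  rw [mem_image] at ha hb
  obtain ⟨s, hs, rfl⟩ := ha
  obtain ⟨t, ht, rfl⟩ := hb
  refine ⟨i, j, hij, x i * w s / (x j * w t), ?_, w t / w s, (Gc c).div_mem (hwm t ht) (hwm s hs), hg, ?_, ?_⟩
  · exact (Gc c).div_mem ((Gc c).mul_mem (hx i) (hwm s hs)) ((Gc c).mul_mem (hx j) (hwm t ht))
  · have h3 := hF2 t ht s hs
    rw [Units.val_div_eq_div_val, hw t (hF1 t ht).1, hw s (hF1 s hs).1]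
    exact h3
  · rw [div_mul_div_comm, mul_comm (x i * w s), mul_comm (x j * w t)]
    rw [show w t * (x i * w s) = (w t * w s) * x i by rw [mul_comm (x i), ← mul_assoc]]
    rw [show w s * (x j * w t) = (w t * w s) * x j by rw [mul_comm (x j), ← mul_assoc, mul_comm (w s)]]
    rw [mul_div_mul_left_eq_div]

end Pool.Agent.AT
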